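import Pool.Agent.H19.OGS.Defs
import Pool.Agent.H19.OG.Theory
import Pool.Agent.H53.OG.Klm

/-!
The general data of `OGS.Defs` satisfy the hypotheses of the abstract theorem (adapted from the files
`Bridge` and `Bridge2` of helper53).
-/

namespace Pool.OGS

set_option linter.unusedSectionVars false

/-- All hypotheses. -/
structure Hyp {P R C T K A : Type} [TopologicalSpace P] [Field K] [AddCommGroup A]
    (reg : P → Set K) (ord : K → R → ℤ) (cl : (R →₀ ℤ) → A) (r : R → P) (c : C → P) (t : T → P)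
    (ln : P → P → P → ℕ) (mu nu : P → P → ℕ) (deg : C → A → ℤ) (tri : A → A → A → ℤ) (c2 : A → ℤ)
    (h : A → ℕ) (Am : A → Prop) (Rat : Prop) : Prop where
  pic : IsPic ord cl
  ideg : IsDeg r c t ln cl deg
  iint : IsInt r c ln cl deg tri
  ic2 : IsC2 tri c2 h Am
  proj : ∃ a, Am a
  lines : LineThms deg tri c2 h Am Rat
  bundles : BundleThms reg ord cl r tri c2 h Am
  cycles : CycleThms r c t ln mu nu cl deg h
  sections : SectionThms r t mu cl h Am
  general : ∃ V, GeneralThms r c t mu cl Am V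
  ln_symm : ∀ y z x, ln y z x = ln z y x
  ln_zero : ∀ y z x, ¬ y ⤳ x → ln y z x = 0
  mu_zero : ∀ y x, ¬ y ⤳ x → mu y x = 0

variable {P R C T K A : Type} [TopologicalSpace P] [Field K] [AddCommGroup A]
  {reg : P → Set K} {ord : K → R → ℤ} {cl : (R →₀ ℤ) → A} {r : R → P} {c : C → P} {t : T → P}
  {ln : P → P → P → ℕ} {mu nu : P → P → ℕ} {deg : C → A → ℤ} {tri : A → A → A → ℤ} {c2 : A → ℤ}
  {h : A → ℕ} {Am : A → Prop} {Rat : Prop}
  (H0 : Hyp reg ord cl r c t ln mu nu deg tri c2 h Am Rat)

include H0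

/-! ### Homomorphisms -/

/-- the degree as a homomorphism -/
noncomputable def degH (Z : C) : A →+ ℤ := AddMonoidHom.mk' (deg Z) (H0.ideg Z).1

/-- the intersection form as a homomorphism -/
noncomputable def triH : A →+ A →+ A →+ ℤ :=
  AddMonoidHom.mk' (fun a => AddMonoidHom.mk' (fun b => AddMonoidHom.mk' (fun c => tri a b c)
    (H0.iint.2.2.1 a b)) (fun b b' => AddMonoidHom.ext fun c => H0.iint.2.1 a b b' c))
    (fun a a' => AddMonoidHom.ext fun b => AddMonoidHom.ext fun c => H0.iint.1 a a' b c)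

/-- the second Chern class as a homomorphism -/
noncomputable def c2H : A →+ ℤ := AddMonoidHom.mk' c2 H0.ic2.1

/-- the class map as a homomorphism -/
noncomputable def clH : (R →₀ ℤ) →+ A := AddMonoidHom.mk' cl H0.pic.1

theorem degH_eq (Z : C) (a : A) : deg Z a = degH H0 Z a := rfl

theorem triH_eq (a b d : A) : tri a b d = triH H0 a b d := rfl

theorem c2H_eq (a : A) : c2 a = c2H H0 a := rfl

theorem clH_eq (D : R →₀ ℤ) : cl D = clH H0 D := rfl

theorem deg_zero (Z : C) : deg Z 0 = 0 := map_zero (degH H0 Z)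

theorem deg_add (Z : C) (a b : A) : deg Z (a + b) = deg Z a + deg Z b := map_add (degH H0 Z) a b

theorem deg_neg (Z : C) (a : A) : deg Z (-a) = -deg Z a := map_neg (degH H0 Z) a

theorem deg_nsmul (Z : C) (m : ℕ) (a : A) : deg Z (m • a) = m * deg Z a := by
  rw [← nsmul_eq_mul]
  exact map_nsmul (degH H0 Z) m a

theorem c2_zero : c2 0 = 0 := map_zero (c2H H0)

omit H0 in
variable (tri c2 h) in
/-- `χ(a) - h^0(a) + h^0(-a) = h^2(a) - h^1(a)`. -/
noncomputable def gap (a : A) : ℤ := (2 * tri a a a + c2 a) / 12 - h a + h (-a)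

variable {n : ℕ} (b : Module.Basis (Fin n) ℤ A)

omit H0 in
/-- The data of the abstract theorem. -/
noncomputable abbrev dat (_H : Hyp reg ord cl r c t ln mu nu deg tri c2 h Am Rat)
    (b : Module.Basis (Fin n) ℤ A) : OG.Data where
  n := n
  t i j k := tri (b i) (b j) (b k)
  c2 i := c2 (b i)
  Ample D := Am (b.equivFun.symm D)
  h i D := match i with
    | 0 => h (b.equivFun.symm D)
    | 1 => (-(gap tri c2 h (b.equivFun.symm D))).toNat
    | 2 => (gap tri c2 h (b.equivFun.symm D)).toNat
    | 3 => h (-(b.equivFun.symm D))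
    | _ => 0
  RC := Rat
  Bd := {E : (P → Set (K × K)) × A // NonSplit reg ord cl r E.1 E.2}
  b1 E := b.equivFun E.1.2
  b2 _ := 0
  Sub A E := LineIn ord cl r E.1.1 (b.equivFun.symm A)
  Stable H E := ∀ B, LineIn ord cl r E.1.1 B → 2 * tri B (b.equivFun.symm H) (b.equivFun.symm H) <
    tri E.1.2 (b.equivFun.symm H) (b.equivFun.symm H)
  Pt := T
  Cv := C
  Pr := R
  dg Z i := deg Z (b i)
  cl p := b.equivFun (clp cl p)
  mp p x := mu (r p) (t x)
  mc p Z := mu (r p) (c Z)
  mq Z x := nu (c Z) (t x)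

/-! ### Real classes -/

omit H0 in
theorem lin_re (f : A →+ ℤ) (D : Fin n → ℤ) :
    OG.lin (fun i => f (b i)) (OG.re D) = (f (b.equivFun.symm D) : ℝ) := by
  simp only [OG.lin, OG.re, Module.Basis.equivFun_symm_apply, map_sum, map_zsmul, smul_eq_mul,
    Int.cast_sum, Int.cast_mul]
  exact Finset.sum_congr rfl fun i _ => mul_comm _ _

omit H0 in
theorem sum_rev (f : Fin n → Fin n → Fin n → ℝ) :
    ∑ i, ∑ j, ∑ k, f i j k = ∑ k, ∑ j, ∑ i, f i j k := by
  rw [Finset.sum_comm, Finset.sum_congr rfl fun j _ => Finset.sum_comm, Finset.sum_comm]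

omit H0 in
theorem tri_re (T : A →+ A →+ A →+ ℤ) (D E F : Fin n → ℤ) :
    OG.tri (fun i j k => T (b i) (b j) (b k)) (OG.re D) (OG.re E) (OG.re F) =
      (T (b.equivFun.symm D) (b.equivFun.symm E) (b.equivFun.symm F) : ℝ) := by
  simp only [OG.tri, OG.re, Module.Basis.equivFun_symm_apply, map_sum, map_zsmul, smul_eq_mul,
    AddMonoidHom.finsetSum_apply, AddMonoidHom.smul_apply, Int.cast_sum, Int.cast_mul,
    Finset.mul_sum]
  rw [sum_rev]
  refine Finset.sum_congr rfl fun i _ => Finset.sum_congr rfl fun j _ =>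
    Finset.sum_congr rfl fun k _ => ?_
  ring

/-! ### Facts which need not be assumed -/

/-- the group of line bundles is generated by the prime divisors -/
theorem pic_induction {Q : A → Prop} (h0 : Q 0) (h1 : ∀ a b, Q a → Q b → Q (a + b))
    (h2 : ∀ (p : R) (k : ℤ), Q (k • clp cl p)) (a : A) : Q a := by
  obtain ⟨D, rfl⟩ := H0.pic.2.1 a
  induction D using Finsupp.induction_linear with
  | zero => rw [clH_eq H0, map_zero]; exact h0
  | add f g hf hg => rw [H0.pic.1]; exact h1 _ _ hf hg
  | single p k =>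
    have h3 : (Finsupp.single p k : R →₀ ℤ) = k • Finsupp.single p 1 := by simp
    rw [h3, clH_eq H0, map_zsmul]
    exact h2 p k

/-- the intersection form is symmetric in the first two arguments -/
theorem tri_comm' (a b d : A) : tri a b d = tri b a d := by
  have key : ∀ p q : R, triH H0 (clp cl p) (clp cl q) d = triH H0 (clp cl q) (clp cl p) d := by
    intro p q
    by_cases hpq : p = q
    · rw [hpq]
    · rw [← triH_eq, ← triH_eq, H0.iint.2.2.2 p q hpq, H0.iint.2.2.2 q p (Ne.symm hpq)]
      exact finsum_congr fun Z => by rw [H0.ln_symm]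
  have h1 : ∀ (p : R) (b : A), triH H0 (clp cl p) b d = triH H0 b (clp cl p) d := by
    intro p b
    refine pic_induction H0 (Q := fun b => triH H0 (clp cl p) b d = triH H0 b (clp cl p) d)
      (by simp) (fun a b ha hb => ?_) (fun q k => ?_) b
    · rw [map_add, map_add, AddMonoidHom.add_apply, AddMonoidHom.add_apply,
        AddMonoidHom.add_apply, ha, hb]
    · simp only [map_zsmul, AddMonoidHom.smul_apply, key p q]
  rw [triH_eq H0, triH_eq H0 b a d]
  refine pic_induction H0 (Q := fun a => triH H0 a b d = triH H0 b a d)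
    (by simp) (fun a a' ha ha' => ?_) (fun p k => ?_) a
  · rw [map_add, map_add, AddMonoidHom.add_apply, AddMonoidHom.add_apply,
      AddMonoidHom.add_apply, ha, ha']
  · simp only [map_zsmul, AddMonoidHom.smul_apply, h1 p b]

/-- the sum of a line bundle and of a large multiple of an ample line bundle is ample -/
theorem ample_add  {c : A} (hc : Am c) (a : A) :
    ∃ N : ℕ, ∀ m : ℕ, N ≤ m → Am (a + m • c) := by
  obtain ⟨m₁, _, h1⟩ := (H0.lines.kleiman c).1 hc a
  have hcn : Nef deg c := by
    intro C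
    obtain ⟨m, hm, h1⟩ := (H0.lines.kleiman c).1 hc 0
    have h2 := h1 C
    rw [add_zero, deg_nsmul H0] at h2
    exact nonneg_of_mul_nonneg_right h2 (by exact_mod_cast hm)
  refine ⟨m₁ + 1, fun m hm => (H0.lines.kleiman _).2 fun b => ?_⟩
  obtain ⟨k, hk, h2⟩ := (H0.lines.kleiman c).1 hc b
  refine ⟨k, hk, fun C => ?_⟩
  have e1 := h1 C
  have e2 := h2 C
  have e3 := hcn C
  obtain ⟨j, rfl⟩ := Nat.exists_eq_add_of_le hm
  simp only [deg_add H0, deg_nsmul H0] at e1 e2 ⊢
  push_cast at e1 e2 ⊢
  have e4 : 0 ≤ (k : ℤ) * (m₁ * deg C c + deg C a) := mul_nonneg (by positivity) e1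
  have e5 : 0 ≤ (k : ℤ) * (j * deg C c) := by positivity
  linarith

/-- Riemann-Roch: the Euler characteristic of a line bundle is an integer -/
theorem rr_int  (a : A) :
    (12 : ℤ) ∣ 2 * tri a a a + c2 a := by
  obtain ⟨c, hc⟩ := H0.proj
  obtain ⟨N, hN⟩ := ample_add H0 hc a
  have h1 : ∀ m : ℕ, N ≤ m →
      (12 : ℤ) ∣ 2 * tri (a + m • c) (a + m • c) (a + m • c) + c2 (a + m • c) :=
    fun m hm => ⟨_, (H0.ic2.2 _ (hN m hm)).symm⟩
  -- the fourth difference of a cubic polynomial is zero
  have h2 : ∀ j m : ℕ, m + j = N →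
      (12 : ℤ) ∣ 2 * tri (a + m • c) (a + m • c) (a + m • c) + c2 (a + m • c) := by
    intro j
    induction j using Nat.strong_induction_on with
    | _ j ih =>
      intro m hm
      have key : ∀ i : ℕ, 0 < i → (12 : ℤ) ∣ 2 * tri (a + (m + i) • c) (a + (m + i) • c)
          (a + (m + i) • c) + c2 (a + (m + i) • c) := by
        intro i hi
        rcases le_or_gt N (m + i) with h3 | h3
        · exact h1 _ h3
        · exact ih (j - i) (by omega) (m + i) (by omega)
      have k1 := key 1 (by norm_num)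
      have k2 := key 2 (by norm_num)
      have k3 := key 3 (by norm_num)
      have k4 := key 4 (by norm_num)
      rcases Nat.eq_zero_or_pos j with hj | hj
      · exact h1 m (by omega)
      · have e : 2 * tri (a + m • c) (a + m • c) (a + m • c) + c2 (a + m • c) =
            4 * (2 * tri (a + (m + 1) • c) (a + (m + 1) • c) (a + (m + 1) • c) +
              c2 (a + (m + 1) • c)) -
            6 * (2 * tri (a + (m + 2) • c) (a + (m + 2) • c) (a + (m + 2) • c) +
              c2 (a + (m + 2) • c)) +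
            4 * (2 * tri (a + (m + 3) • c) (a + (m + 3) • c) (a + (m + 3) • c) +
              c2 (a + (m + 3) • c)) -
            (2 * tri (a + (m + 4) • c) (a + (m + 4) • c) (a + (m + 4) • c) +
              c2 (a + (m + 4) • c)) := by
          simp only [triH_eq H0, c2H_eq H0, map_add, map_nsmul, AddMonoidHom.add_apply,
            AddMonoidHom.smul_apply, nsmul_eq_mul]
          push_cast
          ring
        rw [e]
        exact dvd_sub (dvd_add (dvd_sub (k1.mul_left 4) (k2.mul_left 6)) (k3.mul_left 4)) k4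
  have h3 := h2 N 0 (by simp)
  simpa using h3

/-- the group of line bundles is free -/
theorem pic_free  : Module.Free ℤ (A) := by
  have := H0.lines.finite
  have : IsAddTorsionFree (A) := ⟨fun m hm a b hab => by
    have h1 : m • (a - b) = 0 := by
      have h2 : m • a = m • b := hab
      rw [nsmul_sub, h2, sub_self]
    refine sub_eq_zero.1 (H0.lines.numerical _ fun C => ?_)
    have h3 := congrArg (deg C) h1
    rw [deg_nsmul H0, deg_zero H0] at h3
    exact (mul_eq_zero.1 h3).resolve_left (by exact_mod_cast hm)⟩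
  infer_instance

/-! ### The number `gap` -/

theorem gap_neg  (a : A) : gap tri c2 h (-a) = - gap tri c2 h a := by
  obtain ⟨k, hk⟩ := rr_int H0 a
  have h1 : 2 * tri (-a) (-a) (-a) + c2 (-a) = 12 * (-k) := by
    have h2 : 2 * triH H0 (-a) (-a) (-a) + c2H H0 (-a) = 12 * (-k) := by
      simp only [map_neg, AddMonoidHom.neg_apply, ← triH_eq, ← c2H_eq]
      linarith
    exact h2
  rw [gap, gap, h1, hk, neg_neg, Int.mul_ediv_cancel_left _ (by norm_num),
    Int.mul_ediv_cancel_left _ (by norm_num)]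
  ring

theorem gap_eq  (a : A) :
    12 * gap tri c2 h a = 2 * tri a a a + c2 a - 12 * h a + 12 * h (-a) := by
  obtain ⟨k, hk⟩ := rr_int H0 a
  rw [gap, hk, Int.mul_ediv_cancel_left _ (by norm_num)]
  ring

/-- `X` contains a curve. -/
theorem exists_curve  : Nonempty (C) := by
  by_contra hC
  rw [not_nonempty_iff] at hC
  obtain ⟨a, ha⟩ := H0.proj
  have h1 := H0.lines.c2_pos a ha
  rw [H0.lines.numerical a fun C => hC.elim C, c2_zero H0] at h1
  exact lt_irrefl _ h1

theorem ample_ne  {a : A} (ha : Am a) : a ≠ 0 := by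
  rintro rfl
  have h1 := H0.lines.c2_pos 0 ha
  rw [c2_zero H0] at h1
  exact lt_irrefl _ h1

/-- an ample line bundle is nef -/
theorem nef_of_ample  {a : A} (ha : Am a) : Nef deg a := by
  intro C
  obtain ⟨m, hm, h1⟩ := (H0.lines.kleiman a).1 ha 0
  have h2 := h1 C
  rw [add_zero, deg_nsmul H0] at h2
  exact nonneg_of_mul_nonneg_right h2 (by exact_mod_cast hm)

/-- an ample line bundle has positive degree on every curve -/
theorem deg_pos  {a : A} (ha : Am a) (C : C) : 0 < deg C a := by
  obtain ⟨b, hb⟩ := H0.lines.curve_ne C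
  refine lt_of_le_of_ne (nef_of_ample H0 ha C) fun h0 => ?_
  rcases lt_or_gt_of_ne hb with hb | hb
  · obtain ⟨m, _, h1⟩ := (H0.lines.kleiman a).1 ha b
    have h2 := h1 C
    rw [deg_add H0, deg_nsmul H0, ← h0, mul_zero, zero_add] at h2
    linarith
  · obtain ⟨m, _, h1⟩ := (H0.lines.kleiman a).1 ha (-b)
    have h2 := h1 C
    rw [deg_add H0, deg_nsmul H0, ← h0, mul_zero, zero_add, deg_neg H0] at h2
    linarith

/-- the negative of a nontrivial nef line bundle has no section -/
theorem h0_neg (hR : ¬ Rat) {a : A}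
    (ha : Nef deg a) (ha0 : a ≠ 0) : h (-a) = 0 := by
  by_contra h1
  obtain ⟨C⟩ := exists_curve H0
  have h2 := deg_pos H0 ((H0.lines.peternell (-a) (neg_ne_zero.2 ha0) h1).resolve_right hR) C
  have h3 := ha C
  rw [deg_neg H0] at h2
  linarith

/-! ### Positivity -/

theorem lin_dg  (C : C) (D : Fin n → ℤ) :
    OG.lin ((dat H0 b).dg C) (OG.re D) = (deg C (b.equivFun.symm D) : ℝ) :=
  lin_re b (degH H0 C) D

theorem lin_c2  (D : Fin n → ℤ) :
    OG.lin (dat H0 b).c2 (OG.re D) = (c2 (b.equivFun.symm D) : ℝ) :=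
  lin_re b (c2H H0) D

theorem tri_t  (D E F : Fin n → ℤ) :
    OG.tri (dat H0 b).t (OG.re D) (OG.re E) (OG.re F) =
      (tri (b.equivFun.symm D) (b.equivFun.symm E) (b.equivFun.symm F) : ℝ) :=
  tri_re b (triH H0) D E F

theorem nef_iff  (D : Fin n → ℤ) :
    OG.re D ∈ OG.Nef (dat H0 b) ↔ Nef deg (b.equivFun.symm D) := by
  refine forall_congr' fun C => ?_
  rw [lin_dg H0 b]
  exact Int.cast_nonneg_iff

omit H0 in
theorem symm_comb (m : ℕ) (D E : Fin n → ℤ) :
    b.equivFun.symm ((m : ℤ) • D + E) = m • b.equivFun.symm D + b.equivFun.symm E := by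
  rw [map_add, map_zsmul, natCast_zsmul]

theorem positivity  : OG.Positivity (dat H0 b) where
  symm1 i j k := tri_comm' H0 _ _ _
  symm2 i j k := H0.lines.tri_comm _ _ _
  numerical D hD := by
    have h1 : b.equivFun.symm D = 0 := H0.lines.numerical _ fun C => by
      have h2 := hD C
      rw [lin_dg H0 b] at h2
      exact_mod_cast h2
    exact (LinearEquiv.map_eq_zero_iff _).1 h1
  cv_ne C h0 := by
    obtain ⟨a, ha⟩ := H0.lines.curve_ne C
    apply ha
    have h1 := lin_dg H0 b C (b.equivFun a)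
    rw [h0, LinearEquiv.symm_apply_apply] at h1
    simp only [OG.lin, Pi.zero_apply, Int.cast_zero, zero_mul, Finset.sum_const_zero] at h1
    exact_mod_cast h1.symm
  projective := by
    obtain ⟨a, ha⟩ := H0.proj
    exact ⟨b.equivFun a, by simpa using ha⟩
  kleiman D := by
    rw [OG.interior_iff]
    refine (H0.lines.kleiman (b.equivFun.symm D)).trans ?_
    constructor
    · intro h1 E
      obtain ⟨m, hm, h2⟩ := h1 (b.equivFun.symm E)
      refine ⟨m, hm, ?_⟩
      have h3 := (nef_iff H0 b ((m : ℤ) • D + E)).2 (by rw [symm_comb]; exact h2)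
      exact h3
    · intro h1 c
      obtain ⟨m, hm, h2⟩ := h1 (b.equivFun c)
      refine ⟨m, hm, ?_⟩
      have h3 := (nef_iff H0 b ((m : ℤ) • D + b.equivFun c)).1 h2
      rwa [symm_comb, LinearEquiv.symm_apply_apply] at h3
  c2_pos H hH := by
    rw [lin_c2 H0 b]
    exact_mod_cast H0.lines.c2_pos _ hH

/-! ### Cohomology -/

theorem cohomology (hR : ¬ Rat) :
    OG.Cohomology (dat H0 b) where
  rr D := by
    rw [tri_t H0 b, lin_c2 H0 b]
    have h1 := gap_eq H0 (b.equivFun.symm D)
    have h2 := Int.toNat_sub_toNat_neg (gap tri c2 h (b.equivFun.symm D))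
    have h3 : (((gap tri c2 h (b.equivFun.symm D)).toNat : ℝ) - ((-gap tri c2 h (b.equivFun.symm D)).toNat : ℝ)) =
        (gap tri c2 h (b.equivFun.symm D) : ℝ) := by exact_mod_cast h2
    have h4 : (12 * gap tri c2 h (b.equivFun.symm D) : ℝ) = 2 * tri (b.equivFun.symm D)
      (b.equivFun.symm D) (b.equivFun.symm D) + c2 (b.equivFun.symm D) -
      12 * h (b.equivFun.symm D) + 12 * h (-(b.equivFun.symm D)) := by exact_mod_cast h1
    show 12 * ((h (b.equivFun.symm D) : ℝ) - ((-gap tri c2 h (b.equivFun.symm D)).toNat : ℝ) +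
      ((gap tri c2 h (b.equivFun.symm D)).toNat : ℝ) - (h (-(b.equivFun.symm D)) : ℝ)) = _
    linarith
  serre i hi D := by
    interval_cases i
    · show h (b.equivFun.symm D) = h (-(b.equivFun.symm (-D)))
      simp
    · show (-gap tri c2 h (b.equivFun.symm D)).toNat = (gap tri c2 h (b.equivFun.symm (-D))).toNat
      rw [map_neg, gap_neg H0]
    · show (gap tri c2 h (b.equivFun.symm D)).toNat = (-gap tri c2 h (b.equivFun.symm (-D))).toNat
      rw [map_neg, gap_neg H0, neg_neg]
    · show h (-(b.equivFun.symm D)) = h (b.equivFun.symm (-D))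
      simp
  kodaira D hD i hi := by
    have h1 := h0_neg H0 hR (nef_of_ample H0 hD) (ample_ne H0 hD)
    have h2 : gap tri c2 h (b.equivFun.symm D) = 0 := by
      have h3 := gap_eq H0 (b.equivFun.symm D)
      have h4 := H0.ic2.2 _ hD
      rw [h1] at h3
      push_cast at h3
      linarith
    match i, hi with
    | 1, _ => show (-gap tri c2 h (b.equivFun.symm D)).toNat = 0; rw [h2]; rfl
    | 2, _ => show (gap tri c2 h (b.equivFun.symm D)).toNat = 0; rw [h2]; rfl
    | 3, _ => exact h1
    | (_ + 4), _ => rfl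
  peternell D hD h1 := H0.lines.peternell _ (fun h2 => hD ((LinearEquiv.map_eq_zero_iff _).1 h2)) h1


end Pool.OGS
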