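import Pool.Agent.H19.OGS.Bri
import Pool.Agent.H19.OG.Fac

/-!
The theorem for the general data of `OGS.Defs` (adapted from `Bridge2`, `Final` of helper53).
-/

namespace Pool.OGS

set_option linter.unusedSectionVars false

variable {P R C T K A : Type} [TopologicalSpace P] [Field K] [AddCommGroup A]
  {reg : P → Set K} {ord : K → R → ℤ} {cl : (R →₀ ℤ) → A} {r : R → P} {c : C → P} {t : T → P}
  {ln : P → P → P → ℕ} {mu nu : P → P → ℕ} {deg : C → A → ℤ} {tri : A → A → A → ℤ} {c2 : A → ℤ}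
  {h : A → ℕ} {Am : A → Prop} {Rat : Prop}
  (H0 : Hyp reg ord cl r c t ln mu nu deg tri c2 h Am Rat)


include H0

theorem sub_cl (D E : R →₀ ℤ) : cl (D - E) = cl D - cl E := map_sub (clH H0) D E

theorem add_cl (D E : R →₀ ℤ) : cl (D + E) = cl D + cl E := H0.pic.1 D E

variable {n : ℕ} (b : Module.Basis (Fin n) ℤ A)

/-! ### Bundles of rank two -/

theorem rankTwo  : OG.RankTwo (dat H0 b) where
  ext D hD := by
    have h1 : 0 < gap tri c2 h (b.equivFun.symm D) := by
      by_contra h2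
      apply hD
      show (-gap tri c2 h (b.equivFun.symm (-D))).toNat = 0
      rw [map_neg, gap_neg H0, neg_neg]
      exact Int.toNat_of_nonpos (not_lt.1 h2)
    obtain ⟨E, hE⟩ := H0.bundles.extension (b.equivFun.symm D) (by
      have h2 := gap_eq H0 (b.equivFun.symm D)
      linarith)
    refine ⟨⟨(E, b.equivFun.symm D), hE⟩, LinearEquiv.apply_symm_apply _ _, rfl, fun A hA => ?_⟩
    rcases H0.bundles.line_in E _ _ hE hA with h2 | ⟨h2, h3⟩
    · left
      show h (b.equivFun.symm (-A)) ≠ 0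
      rwa [map_neg]
    · right
      refine ⟨fun h4 => h2 ?_, ?_⟩
      · rw [← map_sub, h4, map_zero]
      · show h (b.equivFun.symm (D - A)) ≠ 0
        rwa [map_sub]
  unst H hH E hE := by
    have h1 : ∃ B, LineIn ord cl r E.1.1 B ∧ ¬ 2 * tri B (b.equivFun.symm H) (b.equivFun.symm H) <
        tri E.1.2 (b.equivFun.symm H) (b.equivFun.symm H) := by
      by_contra h2
      push Not at h2
      exact hE h2
    obtain ⟨B, hB1, hB2⟩ := h1
    refine ⟨b.equivFun B, ?_, ?_⟩
    · show LineIn ord cl r E.1.1 (b.equivFun.symm (b.equivFun B))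
      rwa [LinearEquiv.symm_apply_apply]
    · rw [tri_t H0 b, tri_t H0 b]
      show (tri (b.equivFun.symm (b.equivFun E.1.2)) (b.equivFun.symm H) (b.equivFun.symm H) : ℝ) ≤ _
      rw [LinearEquiv.symm_apply_apply, LinearEquiv.symm_apply_apply]
      exact_mod_cast not_lt.1 hB2
  sub_c2 H hH A E hA := by
    have h1 := H0.bundles.line_tri E.1.1 E.1.2 _ E.2 hA _ hH
    have h2 : b.equivFun.symm ((dat H0 b).b1 E - A) = E.1.2 - b.equivFun.symm A := by
      show b.equivFun.symm (b.equivFun E.1.2 - A) = _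
      rw [map_sub, LinearEquiv.symm_apply_apply]
    rw [tri_t H0 b, h2]
    have h3 : OG.lin ((dat H0 b).b2 E) (OG.re H) = 0 := by simp [OG.lin]
    rw [h3]
    exact_mod_cast h1
  luebke H hH E hE := by
    have h1 := H0.bundles.luebke E.1.1 E.1.2 _ E.2 hH hE
    have h3 : OG.lin ((dat H0 b).b2 E) (OG.re H) = 0 := by simp [OG.lin]
    rw [tri_t H0 b, h3, mul_zero]
    show (tri (b.equivFun.symm (b.equivFun E.1.2)) (b.equivFun.symm (b.equivFun E.1.2))
      (b.equivFun.symm H) : ℝ) < 0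
    rw [LinearEquiv.symm_apply_apply]
    exact_mod_cast h1

/-! ### Divisors -/

omit H0 in
theorem clear {α : Type} (D : α →₀ ℚ) :
    ∃ m : ℕ, 0 < m ∧ ∃ E : α →₀ ℤ, ∀ p, (E p : ℚ) = m * D p := by
  classical
  induction D using Finsupp.induction with
  | zero => exact ⟨1, one_pos, 0, by simp⟩
  | single_add a q D _ _ ih =>
    obtain ⟨m, hm, E, hE⟩ := ih
    refine ⟨m * q.den, mul_pos hm q.den_pos, Finsupp.single a (m * q.num) + (q.den : ℤ) • E,
      fun p => ?_⟩
    have h1 : (q.num : ℚ) = q * q.den := (Rat.mul_den_eq_num q).symm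
    rw [Finsupp.add_apply, Finsupp.add_apply, Finsupp.smul_apply, Finsupp.single_apply,
      Finsupp.single_apply]
    split_ifs with h2
    · push_cast [smul_eq_mul, hE p, h1]
      ring
    · push_cast [smul_eq_mul, hE p]
      ring

theorem cl_sum (E : R →₀ ℤ) : cl E = E.sum fun p k => k • clp cl p := by
  have h1 : E = E.sum fun p k => k • Finsupp.single p (1 : ℤ) := by
    conv_lhs => rw [← Finsupp.sum_single E]
    simp
  conv_lhs => rw [clH_eq H0, h1, Finsupp.sum, map_sum]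
  refine Finset.sum_congr rfl fun p _ => ?_
  rw [map_zsmul]
  rfl

omit H0 in
theorem re_injective {D E : Fin n → ℤ} (h : OG.re D = OG.re E) : D = E := by
  ext i
  have := congrFun h i
  simpa [OG.re] using this

/-- the class of an effective rational divisor, as a real class -/
theorem cls_eq (D : R →₀ ℚ) (m : ℕ) (E : R →₀ ℤ) (h : ∀ p, (E p : ℚ) = m * D p) :
    (m : ℝ) • OG.cls (dat H0 b) D = OG.re (b.equivFun (cl E)) := by
  classical
  have h1 : ∀ p, (E p : ℝ) = m * (D p : ℝ) := fun p => by exact_mod_cast congrArg (_root_.Rat.cast : ℚ → ℝ) (h p)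
  have h2 : OG.cls (dat H0 b) D = ∑ p ∈ D.support ∪ E.support, (D p : ℝ) • OG.re (b.equivFun (clp cl p)) :=
    Finsupp.sum_of_support_subset D Finset.subset_union_left _ (by simp)
  have h3 : cl E = ∑ p ∈ D.support ∪ E.support, E p • clp cl p :=
    (cl_sum H0 E).trans (Finsupp.sum_of_support_subset E Finset.subset_union_right _ (by simp))
  rw [h2, h3]
  ext i
  simp only [Pi.smul_apply, Finset.sum_apply, OG.re, map_sum, map_zsmul, smul_eq_mul,
    Int.cast_sum, Int.cast_mul, Finset.mul_sum]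
  exact Finset.sum_congr rfl fun p _ => by rw [h1 p]; ring

theorem eff_iff (D : R →₀ ℚ) (H : Fin n → ℤ) :
    OG.Eff (dat H0 b) D H ↔ Eff cl D (b.equivFun.symm H) := by
  refine and_congr_right fun _ => ?_
  constructor
  · intro h1
    obtain ⟨m, hm, E, hE⟩ := clear D
    refine ⟨m, hm, E, hE, ?_⟩
    have h2 := cls_eq H0 b D m E hE
    rw [h1] at h2
    have h3 : OG.re ((m : ℤ) • H) = OG.re (b.equivFun (cl E)) := by
      rw [← h2, OG.re_smul']
      simp
    have h4 := re_injective h3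
    rw [← natCast_zsmul, ← map_zsmul, h4, LinearEquiv.symm_apply_apply]
  · rintro ⟨m, hm, E, hE, h1⟩
    have h2 := cls_eq H0 b D m E hE
    rw [h1, map_nsmul, LinearEquiv.apply_symm_apply, ← natCast_zsmul, OG.re_smul'] at h2
    have hm' : (m : ℝ) ≠ 0 := by exact_mod_cast hm.ne'
    exact smul_right_injective _ hm' (by simpa using h2)

theorem mpt_eq (D : R →₀ ℚ) (x : T) :
    OG.mpt (dat H0 b) D x = ((mpt r mu D (t x) : ℚ) : ℝ) := by
  simp only [OG.mpt, mpt, Finsupp.sum]
  push_cast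
  rfl

theorem mcv_eq (D : R →₀ ℚ) (C : C) :
    OG.mcv (dat H0 b) D C = ((mpt r mu D (c C) : ℚ) : ℝ) := by
  simp only [OG.mcv, mpt, Finsupp.sum]
  push_cast
  rfl

/-! ### Cycles -/

theorem clN_eq (E : R →₀ ℕ) :
    OG.clN (dat H0 b) E = b.equivFun (cl (E.mapRange (Nat.cast : ℕ → ℤ) rfl)) := by
  rw [cl_sum H0, Finsupp.sum_mapRange_index (by simp), OG.clN, Finsupp.sum, Finsupp.sum, map_sum]
  exact Finset.sum_congr rfl fun p _ => (map_zsmul _ _ _).symm

theorem cycles  : OG.Cycles (dat H0 b) where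
  pr_h0 p := by
    show h (b.equivFun.symm (b.equivFun (clp cl p))) ≠ 0
    rw [LinearEquiv.symm_apply_apply]
    exact H0.cycles.prime_h0 p
  pr_ne p := fun h1 => H0.cycles.prime_ne p ((LinearEquiv.map_eq_zero_iff _).1 h1)
  pr_pt p := H0.cycles.prime_pt p
  mc_le p C x hx := H0.cycles.mul_le p C x ((H0.cycles.hil_pos C x).1 hx)
  bez p C x h1 := by
    rw [lin_dg H0 b]
    show (mu (r p) (t x) : ℝ) * (nu (c C) (t x) : ℝ) ≤ (deg C (b.equivFun.symm (b.equivFun (clp cl p))) : ℝ)
    rw [LinearEquiv.symm_apply_apply]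
    exact_mod_cast H0.cycles.bezout p C x h1
  inter p q hpq := by
    classical
    let f : C → ℕ := fun C => ln (r p) (r q) (c C)
    have hf : ∀ C, f C ≠ 0 → C ∈ (H0.cycles.prime_meet p q hpq).toFinset := by
      intro C h1
      rw [Set.Finite.mem_toFinset]
      refine ⟨?_, ?_⟩
      · by_contra h2
        apply h1
        show ln (r p) (r q) (c C) = 0
        exact H0.ln_zero _ _ _ h2
      · by_contra h2
        apply h1
        show ln (r p) (r q) (c C) = 0
        rw [H0.ln_symm]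
        exact H0.ln_zero _ _ _ h2
    refine ⟨Finsupp.onFinset _ f hf, fun A => ?_, fun x => ?_⟩
    · rw [tri_t H0 b]
      show (tri (b.equivFun.symm (b.equivFun (clp cl p))) (b.equivFun.symm (b.equivFun (clp cl q)))
        (b.equivFun.symm A) : ℝ) = _
      rw [LinearEquiv.symm_apply_apply, LinearEquiv.symm_apply_apply,
        H0.iint.2.2.2 p q hpq,
        finsum_eq_sum_of_support_subset (s := (H0.cycles.prime_meet p q hpq).toFinset) _ (by
          intro C hC
          rw [Function.mem_support] at hC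
          refine hf C fun h1 => hC ?_
          show ((f C : ℕ) : ℤ) * _ = 0
          rw [h1]; simp),
        Finsupp.onFinset_sum _ (by simp)]
      push_cast
      exact Finset.sum_congr rfl fun C _ => by rw [lin_dg H0 b]
    · refine (H0.cycles.samuel p q hpq x).trans (le_of_eq ?_)
      rw [finsum_eq_sum_of_support_subset (s := (H0.cycles.prime_meet p q hpq).toFinset) _ (by
          intro C hC
          rw [Function.mem_support] at hC
          refine hf C fun h1 => hC ?_
          show f C * _ = 0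
          rw [h1]; simp),
        Finsupp.onFinset_sum _ (by simp)]
  cv_meet C C' hC := (H0.cycles.curve_meet C C' hC).subset fun x hx =>
    ⟨(H0.cycles.hil_pos C x).1 hx.1, (H0.cycles.hil_pos C' x).1 hx.2⟩
  cv_sing C := H0.cycles.curve_sing C
  pr_meet p q hpq := (H0.cycles.prime_meet p q hpq).subset fun C hC =>
    ⟨by_contra fun h1 => hC.1.ne' (H0.mu_zero _ _ h1),
      by_contra fun h1 => hC.2.ne' (H0.mu_zero _ _ h1)⟩
  pr_sing p := H0.cycles.prime_sing p
  pencil H D₁ D₂ h1 h2 S x := by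
    obtain ⟨D, hD, h3, h4⟩ := H0.sections.pencil _ D₁ D₂ ((eff_iff H0 b _ _).1 h1) ((eff_iff H0 b _ _).1 h2) S x
    refine ⟨D, (eff_iff H0 b _ _).2 hD, h3, ?_⟩
    have h5 : min ((mpt r mu D₁ (t x) : ℚ) : ℝ) ((mpt r mu D₂ (t x) : ℚ) : ℝ) ≤
        ((mpt r mu D (t x) : ℚ) : ℝ) := by exact_mod_cast h4
    exact ((congrArg₂ min (mpt_eq H0 b D₁ x) (mpt_eq H0 b D₂ x)).le.trans h5).trans
      (mpt_eq H0 b D x).ge
  restr D E G h1 := by
    obtain ⟨D', hD'⟩ := H0.pic.2.1 (b.equivFun.symm D)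
    have h2 := H0.sections.restriction D' (E.mapRange (Nat.cast : ℕ → ℤ) rfl : R →₀ ℤ)
      (G.mapRange (Nat.cast : ℕ → ℤ) rfl : R →₀ ℤ) (fun p => by
        show (0 : ℤ) ≤ (E.mapRange (Nat.cast : ℕ → ℤ) rfl : R →₀ ℤ) p
        simp) (fun p => by
        show (0 : ℤ) ≤ (G.mapRange (Nat.cast : ℕ → ℤ) rfl : R →₀ ℤ) p
        simp)
      (fun p => by
        show (E.mapRange (Nat.cast : ℕ → ℤ) rfl : R →₀ ℤ) p = 0 ∨
          (G.mapRange (Nat.cast : ℕ → ℤ) rfl : R →₀ ℤ) p = 0
        simpa using h1 p)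
    have h3 : cl D' = b.equivFun.symm D := hD'
    show h (b.equivFun.symm D) + h (b.equivFun.symm (D + OG.clN (dat H0 b) E -
      OG.clN (dat H0 b) G)) ≤ h (b.equivFun.symm (D + OG.clN (dat H0 b) E)) +
      h (b.equivFun.symm (D - OG.clN (dat H0 b) G))
    rw [clN_eq H0, clN_eq H0, map_sub, map_add, map_sub, LinearEquiv.symm_apply_apply,
      LinearEquiv.symm_apply_apply, ← h3]
    rw [sub_cl H0, add_cl H0, sub_cl H0] at h2
    exact h2

/-! ### Sections and very general points -/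

theorem sections : OG.Sections (dat H0 b) where
  val x := by
    obtain ⟨S, h1, h2, h3, h4⟩ := H0.sections.valuations x
    refine ⟨fun D => S (b.equivFun.symm D), fun D => h1 _, fun D D' v hv v' hv' => ?_,
      fun D v hv => ?_, fun H hH => ?_⟩
    · show v + v' ∈ S (b.equivFun.symm (D + D'))
      rw [map_add]
      exact h2 _ _ v hv v' hv'
    · obtain ⟨h5, h6, h7, E, h8, h9⟩ := h3 _ v hv
      refine ⟨h5, h6, h7, E, (eff_iff H0 b _ _).2 h8, ?_⟩
      exact (mpt_eq H0 b E x).trans (by rw [h9]; norm_cast)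
    · obtain ⟨k, hk, h5⟩ := h4 _ hH
      refine ⟨k, hk, ?_⟩
      show _ ∈ S (b.equivFun.symm ((k : ℤ) • H)) ∧ _ ∈ S (b.equivFun.symm ((k : ℤ) • H)) ∧
        _ ∈ S (b.equivFun.symm ((k : ℤ) • H)) ∧ _ ∈ S (b.equivFun.symm ((k : ℤ) • H))
      rw [map_zsmul, natCast_zsmul]
      exact h5

theorem general :
    ∃ V, OG.VeryGeneral (dat H0 b) V := by
  obtain ⟨V, h1, h2, h3, h4⟩ := H0.general
  refine ⟨V, h1, fun C x hx hC S => ?_, fun H hH x hx C hC D hD => ?_,
    fun H hH x hx p hp D hD => ?_⟩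
  · obtain ⟨z, hz, h5, h6⟩ := h2 C x hx ((H0.cycles.hil_pos C x).1 hC) S
    exact ⟨z, hz, (H0.cycles.hil_pos C z).2 h5, h6⟩
  · obtain ⟨D', h5, h6, h7⟩ := h3 _ hH x hx C ((H0.cycles.hil_pos C x).1 hC) D ((eff_iff H0 b _ _).1 hD)
    refine ⟨D', (eff_iff H0 b _ _).2 h5, ?_, ?_⟩
    · exact (mcv_eq H0 b D' C).trans (by rw [h6, _root_.Rat.cast_zero])
    · have h8 : ((mpt r mu D (t x) : ℚ) : ℝ) - ((mpt r mu D (c C) : ℚ) : ℝ) ≤
          ((mpt r mu D' (t x) : ℚ) : ℝ) := by exact_mod_cast h7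
      exact ((congrArg₂ (· - ·) (mpt_eq H0 b D x) (mcv_eq H0 b D C)).le.trans h8).trans
        (mpt_eq H0 b D' x).ge
  · obtain ⟨D', h5, h6, h7⟩ := h4 _ hH x hx p hp D ((eff_iff H0 b _ _).1 hD)
    refine ⟨D', (eff_iff H0 b _ _).2 h5, h6, ?_⟩
    have h8 : ((mpt r mu D (t x) : ℚ) : ℝ) - ((D p : ℚ) : ℝ) ≤
        ((mpt r mu D' (t x) : ℚ) : ℝ) := by exact_mod_cast h7
    exact ((congrArg (· - ((D p : ℚ) : ℝ)) (mpt_eq H0 b D x)).le.trans h8).trans
      (mpt_eq H0 b D' x).ge

theorem published (hR : ¬ Rat) : OG.Published (dat H0 b) where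
  positivity := positivity H0 b
  cohomology := cohomology H0 b hR
  rankTwo := rankTwo H0 b
  cycles := cycles H0 b
  sections := sections H0 b
  veryGeneral := general H0 b

/-- The theorem for the general data. -/
theorem main (hn : 2 ≤ Module.finrank ℤ A ∨ ∃ a : A, a ≠ 0 ∧ Nef deg a ∧ ¬ Am a) : Rat := by
  have : Module.Finite ℤ A := H0.lines.finite
  have : Module.Free ℤ A := pic_free H0
  by_contra hR
  let b := Module.finBasis ℤ A
  refine hR (OG.rational_curve_of (published H0 b hR) ?_)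
  rcases hn with hn | ⟨a, ha0, han, haa⟩
  · left
    exact hn
  · right
    refine ⟨b.equivFun a, fun h1 => ha0 ((LinearEquiv.map_eq_zero_iff _).1 h1), ?_, ?_⟩
    · rw [nef_iff H0 b, LinearEquiv.symm_apply_apply]
      exact han
    · show ¬ Am (b.equivFun.symm (b.equivFun a))
      rwa [LinearEquiv.symm_apply_apply]

end Pool.OGS
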