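import Mathlib

/-!
# Rational curves on Calabi-Yau threefolds: definitions

The first sections are about general data: local rings `L x` at the points `x` of a topological space
`P`, a field `K` of rational functions, types `R`, `C`, `T` of prime divisors, irreducible curves and
closed points with their (generic) points `r p`, `c C`, `t x` in `P`, and the group `A` of line
bundles with the class map `cl` on divisors.  The last section takes these data from a scheme.
-/

namespace Pool.OGS

open IsLocalRing

/-! ### Local rings -/

section Ring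

variable {O : Type} [CommRing O]

/-- The length of the quotient of the ring `O` by the ideal `I + J`. -/
noncomputable def len (I J : Ideal O) : ℕ := (Module.length O (O ⧸ (I ⊔ J))).toNat

variable [IsLocalRing O]

/-- The multiplicity of the ideal `I`: the largest `m` such that `I` is contained in the `m`-th power
of the maximal ideal. -/
noncomputable def mul (I : Ideal O) : ℕ := sSup {m : ℕ | I ≤ maximalIdeal O ^ m}

/-- The largest value of the Hilbert function `dim (m ^ k / m ^ (k + 1))` of the local ring `O ⧸ I`
(it has this value for all large `k` if the dimension of `O ⧸ I` is one). -/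
noncomputable def hil (I : Ideal O) : ℕ :=
  ⨆ k : ℕ, (len (maximalIdeal O ^ (k + 1)) I - len (maximalIdeal O ^ k) I)

/-- The ideal of the elements of `O'` whose images in the local ring `O` are in the maximal ideal, if
`w` holds (and `f` is the map from `O'` to `O`), and the unit ideal otherwise. -/
noncomputable def pull {O' : Type} [CommRing O'] {w : Prop} (f : w → O' →+* O) : Ideal O' :=
  ⨅ h : w, (maximalIdeal O).comap (f h)

/-- The residue field of `O` is isomorphic to the field of rational functions in one variable over
the complex numbers, compatibly with the constants `e z`, `z` a complex number. -/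
def RatRes (e : ℂ → O) : Prop :=
  ∃ g : ResidueField O ≃+* RatFunc ℂ, ∀ z : ℂ, g (residue O (e z)) = RatFunc.C z

end Ring

/-! ### Line bundles -/

section Lines

variable {P R K A : Type} [Field K] [AddCommGroup A] (ord : K → R → ℤ) (cl : (R →₀ ℤ) → A)

/-- `cl` identifies `A` with the group of divisors modulo divisors of rational functions. -/
def IsPic : Prop :=
  (∀ D E, cl (D + E) = cl D + cl E) ∧ (∀ a, ∃ D, cl D = a) ∧
    ∀ D, cl D = 0 ↔ ∃ f : K, f ≠ 0 ∧ ∀ p, D p = ord f p

/-- The class of a prime divisor. -/
noncomputable def clp (p : R) : A := cl (Finsupp.single p 1)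

/-- The rational function `f` is a section of the line bundle of `D`: `f = 0` or `div f + D ≥ 0`. -/
def IsSec (D : R →₀ ℤ) (f : K) : Prop := f ≠ 0 → ∀ p, 0 ≤ ord f p + D p

/-- The dimension of the space of sections of the line bundle `a`: the largest number of sections,
linearly independent over the constants `e z`, of the line bundle of a divisor in the class `a`. -/
noncomputable def h0 (e : ℂ → K) (a : A) : ℕ :=
  sSup {n : ℕ | ∃ D, cl D = a ∧ ∃ f : Fin n → K, (∀ i, IsSec ord D (f i)) ∧
    ∀ z : Fin n → ℂ, ∑ i, e (z i) * f i = 0 → z = 0}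

variable [TopologicalSpace P] (r : R → P)

/-- The divisor `D` is ample: the affine open sets among the complements of the effective divisors
`m D + div f`, `m > 0`, cover the space. -/
def AmpleDiv (Aff : Set P → Prop) (D : R →₀ ℤ) : Prop :=
  ∀ x : P, ∃ m : ℕ, 0 < m ∧ ∃ f : K, f ≠ 0 ∧ (∀ p, 0 ≤ m * D p + ord f p) ∧
    ∃ U : Set P, Aff U ∧ x ∈ U ∧ ∀ y, y ∈ U ↔ ∀ p, r p ⤳ y → m * D p + ord f p = 0

/-- The line bundle `a` is ample. -/
def Ample (Aff : Set P → Prop) (a : A) : Prop := ∃ D, cl D = a ∧ AmpleDiv ord r Aff D

/-- The stalk at `x` of the line bundle of the divisor `D`: the rational functions `f` with `f = 0` or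
`div f + D ≥ 0` near `x`. -/
def sec (D : R →₀ ℤ) (x : P) : Set K := {f | f ≠ 0 → ∀ p, r p ⤳ x → 0 ≤ ord f p + D p}

end Lines

/-! ### Differential forms -/

section Forms

variable {P K : Type} [Field K] (reg : P → Set K) (e : ℂ → K)

/-- The stalk of the tangent sheaf at the point `x`: the derivations of the field of rational
functions over the complex numbers which preserve the set `reg x` of functions regular at `x`. -/
def Tan (x : P) : Set (K → K) :=
  {D | (∀ f g, D (f + g) = D f + D g) ∧ (∀ f g, D (f * g) = f * D g + g * D f) ∧
    (∀ z, D (e z) = 0) ∧ ∀ f ∈ reg x, D f ∈ reg x}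

/-- The value of the differential form `u df₀ ∧ df₁ ∧ df₂` at the vector fields `D₀`, `D₁`, `D₂`. -/
def val (u : K) (f : Fin 3 → K) (D : Fin 3 → K → K) : K := u * (Matrix.of fun i j => D i (f j)).det

/-- The canonical bundle is trivial: there is a rational differential form of degree three which
generates the canonical bundle at every point `x`: its values at vector fields which are regular at
`x` are regular at `x`, and one is among them. -/
def CanonicalTrivial : Prop :=
  ∃ (u : K) (f : Fin 3 → K), ∀ x : P,
    (∀ D : Fin 3 → K → K, (∀ i, D i ∈ Tan reg e x) → val u f D ∈ reg x) ∧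
    ∃ D : Fin 3 → K → K, (∀ i, D i ∈ Tan reg e x) ∧ val u f D = 1

end Forms

/-! ### Intersection numbers -/

section Numbers

variable {P R C T A : Type} [TopologicalSpace P] [AddCommGroup A] (r : R → P) (c : C → P)
  (t : T → P) (ln : P → P → P → ℕ) (mu nu : P → P → ℕ)
  (cl : (R →₀ ℤ) → A) (deg : C → A → ℤ) (tri : A → A → A → ℤ) (c2 : A → ℤ)
  (h : A → ℕ) (Am : A → Prop) (Rat : Prop)

/-- `deg Z` is the degree of line bundles on the curve `Z`: it is additive, and for a prime divisor `p`
which does not contain `Z` the degree is the sum of the lengths of the local rings of the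
intersection of `p` and `Z`. -/
def IsDeg : Prop :=
  ∀ Z : C, (∀ a b, deg Z (a + b) = deg Z a + deg Z b) ∧ ∀ p : R, ¬ r p ⤳ c Z →
    deg Z (clp cl p) = ∑ᶠ x : T, (ln (r p) (c Z) (t x) : ℤ)

/-- `tri` is the intersection form: it is additive in each argument, and for different prime divisors
`p`, `q` the number `tri p q a` is the degree of `a` on the intersection cycle of `p` and `q`. -/
def IsInt : Prop :=
  (∀ a a' b d, tri (a + a') b d = tri a b d + tri a' b d) ∧
  (∀ a b b' d, tri a (b + b') d = tri a b d + tri a b' d) ∧
  (∀ a b d d', tri a b (d + d') = tri a b d + tri a b d') ∧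
  ∀ p q : R, p ≠ q → ∀ a, tri (clp cl p) (clp cl q) a =
    ∑ᶠ Z : C, (ln (r p) (r q) (c Z) : ℤ) * deg Z a

/-- `c2` is the linear form given by the second Chern class of a smooth projective threefold with
trivial canonical bundle, characterised by the theorem of Riemann-Roch (and the vanishing theorem of
Kodaira) for ample line bundles; `h a` is the dimension of the space of sections of `a`. -/
def IsC2 : Prop :=
  (∀ a b, c2 (a + b) = c2 a + c2 b) ∧ ∀ a, Am a → 12 * (h a : ℤ) = 2 * tri a a a + c2 a

/-- The line bundle `a` is nef: its degree on every curve is nonnegative. -/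
def Nef (a : A) : Prop := ∀ Z, 0 ≤ deg Z a

/-! ### The published theorems -/

/-- Line bundles.  `Am a` means that `a` is ample, `Rat` that the threefold contains a rational
curve. -/
structure LineThms : Prop where
  /-- the intersection form is symmetric -/
  tri_comm : ∀ a b d, tri a b d = tri a d b
  /-- the group of line bundles is finitely generated (Severi, Neron; `H^1(X, O) = 0`) -/
  finite : Module.Finite ℤ A
  /-- a line bundle of degree zero on every curve is trivial (`H^1(X, O) = 0`, no torsion) -/
  numerical : ∀ a, (∀ Z, deg Z a = 0) → a = 0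
  /-- some line bundle has nonzero degree on the curve (`X` is projective) -/
  curve_ne : ∀ Z, ∃ a, deg Z a ≠ 0
  /-- Kleiman 1966: the ample classes are those in the interior of the nef cone -/
  kleiman : ∀ a, Am a ↔ ∀ b, ∃ m : ℕ, 0 < m ∧ Nef deg (m • a + b)
  /-- Yau 1978: the second Chern class is positive on ample line bundles, as `X` is not covered by an
  abelian threefold -/
  c2_pos : ∀ a, Am a → 0 < c2 a
  /-- Peternell 1991: a nontrivial line bundle with a section is ample, or `X` contains a rational
  curve -/
  peternell : ∀ a, a ≠ 0 → h a ≠ 0 → Am a ∨ Rat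

/-- Prime divisors, curves and multiplicities. -/
structure CycleThms : Prop where
  /-- the line bundle of a prime divisor has a section -/
  prime_h0 : ∀ p, h (clp cl p) ≠ 0
  /-- the line bundle of a prime divisor is not trivial -/
  prime_ne : ∀ p, clp cl p ≠ 0
  /-- a prime divisor contains a closed point -/
  prime_pt : ∀ p, ∃ x, 0 < mu (r p) (t x)
  /-- multiplicity is upper semicontinuous -/
  mul_le : ∀ p Z x, c Z ⤳ t x → mu (r p) (c Z) ≤ mu (r p) (t x)
  /-- the multiplicity of a curve at a point is positive if and only if the point is on the curve -/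
  hil_pos : ∀ Z x, 0 < nu (c Z) (t x) ↔ c Z ⤳ t x
  /-- Bezout: if a curve is not contained in a prime divisor, their intersection number is at
  least the product of the multiplicities at any point -/
  bezout : ∀ p Z x, mu (r p) (c Z) = 0 →
    (mu (r p) (t x) * nu (c Z) (t x) : ℤ) ≤ deg Z (clp cl p)
  /-- two different prime divisors have finitely many common curves -/
  prime_meet : ∀ p q, p ≠ q → {Z | r p ⤳ c Z ∧ r q ⤳ c Z}.Finite
  /-- the multiplicity of the intersection cycle of two different prime divisors at a point is at
  least the product of their multiplicities (Fulton, Corollary 12.4) -/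
  samuel : ∀ p q, p ≠ q → ∀ x, mu (r p) (t x) * mu (r q) (t x) ≤
    ∑ᶠ Z, ln (r p) (r q) (c Z) * nu (c Z) (t x)
  /-- two different curves meet in a finite set -/
  curve_meet : ∀ Z W, Z ≠ W → {x | c Z ⤳ t x ∧ c W ⤳ t x}.Finite
  /-- a curve has a finite set of singular points -/
  curve_sing : ∀ Z, {x | 1 < nu (c Z) (t x)}.Finite
  /-- a prime divisor is singular along a finite set of curves -/
  prime_sing : ∀ p, {Z | 1 < mu (r p) (c Z)}.Finite

/-- `D` is an effective rational divisor in the class `a`: for some `m > 0` the divisor `m D` is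
integral and its class is `m a`. -/
def Eff (D : R →₀ ℚ) (a : A) : Prop :=
  (∀ p, 0 ≤ D p) ∧ ∃ m : ℕ, 0 < m ∧ ∃ E : R →₀ ℤ, (∀ p, (E p : ℚ) = m * D p) ∧ cl E = m • a

/-- Multiplicity of a rational divisor at the point `x`. -/
noncomputable def mpt (D : R →₀ ℚ) (x : P) : ℚ := D.sum fun p q => q * mu (r p) x

/-- Sections of line bundles. -/
structure SectionThms : Prop where
  /-- a general member of the pencil spanned by (multiples of) two effective divisors of the
  same class contains no prime divisor of a given finite set, except those which both contain, and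
  its multiplicity at a point is at least the smaller one -/
  pencil : ∀ a D₁ D₂, Eff cl D₁ a → Eff cl D₂ a → ∀ (S : Finset R) (x : T), ∃ D, Eff cl D a ∧
    (∀ p ∈ S, D₁ p = 0 ∨ D₂ p = 0 → D p = 0) ∧
      min (mpt r mu D₁ (t x)) (mpt r mu D₂ (t x)) ≤ mpt r mu D (t x)
  /-- If `D₁`, `D₂` are effective divisors without common component and `D` is a divisor, then inside
  the space of sections of `D + D₁` the sections of `D` and of `D + D₁ - D₂` have as intersection
  the sections of `D - D₂`. -/
  restriction : ∀ D D₁ D₂ : R →₀ ℤ, (∀ p, 0 ≤ D₁ p) → (∀ p, 0 ≤ D₂ p) →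
    (∀ p, D₁ p = 0 ∨ D₂ p = 0) →
    h (cl D) + h (cl (D + D₁ - D₂)) ≤ h (cl (D + D₁)) + h (cl (D - D₂))
  /-- Let `x` be a point and `E = P^2` the exceptional divisor of the blow-up of `x`; choose a
  line in `E` and a point on the line.  The valuation vector of a nonzero section of a line
  bundle is `(m, i, j)`: `m` is its multiplicity at `x`, `i` the multiplicity of the line in
  the plane curve of degree `m` in `E` given by the leading form, and `j` the multiplicity of
  the point in the divisor of degree `m - i` cut out on the line by the rest of the curve.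
  `S a` is the set of these vectors for the sections of `a`.  It has `h^0(a)` elements, because
  a valuation of maximal rational rank has one-dimensional leaves (Lazarsfeld-Mustata 2009,
  Lemma 1.4), and valuation vectors of products are sums.  The last line: some multiple of an
  ample `a` separates tangent vectors at `x`. -/
  valuations : ∀ x : T, ∃ S : A → Finset (ℤ × ℤ × ℤ),
    (∀ a, (S a).card = h a) ∧
    (∀ a a', ∀ v ∈ S a, ∀ v' ∈ S a', v + v' ∈ S (a + a')) ∧
    (∀ a, ∀ v ∈ S a, 0 ≤ v.2.1 ∧ 0 ≤ v.2.2 ∧ v.2.1 + v.2.2 ≤ v.1 ∧
      ∃ D, Eff cl D a ∧ mpt r mu D (t x) = v.1) ∧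
    ∀ a, Am a → ∃ k : ℕ, 0 < k ∧ (0, 0, 0) ∈ S (k • a) ∧ (1, 0, 0) ∈ S (k • a) ∧
      (1, 1, 0) ∈ S (k • a) ∧ (1, 0, 1) ∈ S (k • a)

/-- The set `V` of closed points consists of very general points: it is the complement of a countable
union of suitable proper closed subsets, it is not empty, a curve through a point of `V` contains
infinitely many points of `V`, and the theorem on differentiation in families applies
(Ein-Kuechle-Lazarsfeld 1995, Proposition 2.3). -/
structure GeneralThms (V : Set T) : Prop where
  nonempty : V.Nonempty
  infinite : ∀ Z, ∀ x ∈ V, c Z ⤳ t x → ∀ S : Finset T, ∃ z ∈ V, c Z ⤳ t z ∧ z ∉ S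
  /-- if a curve passes through a point `x` of `V`, then for every effective rational divisor `D` with
  an ample class there is one with the same class which does not contain the curve, and whose
  multiplicity at `x` is smaller by at most the multiplicity of `D` along the curve -/
  curve : ∀ a, Am a → ∀ x ∈ V, ∀ Z, c Z ⤳ t x → ∀ D, Eff cl D a →
    ∃ D', Eff cl D' a ∧ mpt r mu D' (c Z) = 0 ∧
      mpt r mu D (t x) - mpt r mu D (c Z) ≤ mpt r mu D' (t x)
  /-- the same for a prime divisor through `x` -/
  prime : ∀ a, Am a → ∀ x ∈ V, ∀ p, 0 < mu (r p) (t x) → ∀ D, Eff cl D a →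
    ∃ D', Eff cl D' a ∧ D' p = 0 ∧ mpt r mu D (t x) - D p ≤ mpt r mu D' (t x)

end Numbers

/-! ### Vector bundles of rank two -/

section Bundles

variable {P R K A : Type} [TopologicalSpace P] [Field K] [AddCommGroup A] (reg : P → Set K)
  (ord : K → R → ℤ) (cl : (R →₀ ℤ) → A) (r : R → P)

/-- The determinant of two pairs of rational functions. -/
def det₂ (u v : K × K) : K := u.1 * v.2 - u.2 * v.1

/-- `E` is a vector bundle of rank two, given by its stalks, as sets of pairs of rational functions:
they are locally generated by two sections. -/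
def IsBundle (E : P → Set (K × K)) : Prop :=
  ∀ x, ∃ U : Set P, IsOpen U ∧ x ∈ U ∧ ∃ u v : K × K, det₂ u v ≠ 0 ∧
    ∀ y ∈ U, E y = {w | ∃ f ∈ reg y, ∃ g ∈ reg y, w = f • u + g • v}

/-- `O(b)` is a saturated subsheaf of `E`: it is the intersection of `E` and the line of `w`. -/
def LineIn (E : P → Set (K × K)) (b : A) : Prop :=
  ∃ w : K × K, w ≠ 0 ∧ ∃ D, cl D = b ∧ ∀ x (f : K), f • w ∈ E x ↔ f ∈ sec ord r D x

/-- `E` is a vector bundle of rank two and an extension of the line bundle `a` by the trivial line
bundle, which does not split: the kernel of the map `v ↦ u ∧ v` from `E` to `O(D)`, `D` a divisor in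
the class `a`, is `O u`, the map is surjective, and there is no section `w` of the map. -/
def NonSplit (E : P → Set (K × K)) (a : A) : Prop :=
  IsBundle reg E ∧ ∃ (u : K × K) (D : R →₀ ℤ), cl D = a ∧
    (∀ x (f : K), f • u ∈ E x ↔ f ∈ sec ord r 0 x) ∧
    (∀ x (f : K), (∃ v ∈ E x, det₂ u v = f) ↔ f ∈ sec ord r D x) ∧
    ¬ ∃ w, det₂ u w = 1 ∧ ∀ x, ∀ f ∈ sec ord r D x, f • w ∈ E x

variable (tri : A → A → A → ℤ) (c2 : A → ℤ) (h : A → ℕ) (Am : A → Prop)

/-- Extensions of line bundles by the trivial line bundle. -/
structure BundleThms : Prop where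
  /-- By Riemann-Roch and Serre duality `χ(a) > h^0(a) - h^0(-a) = h^0(a) - h^3(a)` implies that
  `H^2(a)`, `H^1(-a) = Ext^1(O(a), O)` are not zero. -/
  extension : ∀ a, 12 * (h a : ℤ) < 2 * tri a a a + c2 a + 12 * h (-a) →
    ∃ E, NonSplit reg ord cl r E a
  /-- a line bundle in the extension is contained in `O`, or it maps to `O(a)` by a nonzero map, which
  is not an isomorphism as the extension does not split -/
  line_in : ∀ E a b, NonSplit reg ord cl r E a → LineIn ord cl r E b →
    h (-b) ≠ 0 ∨ (a - b ≠ 0 ∧ h (a - b) ≠ 0)
  /-- the quotient of `E` by the saturated subsheaf `O(b)` is the ideal sheaf of a closed subscheme `Z`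
  of codimension two, twisted by `a - b`, and `0 = c_2(E) = b (a - b) + [Z]` -/
  line_tri : ∀ E a b, NonSplit reg ord cl r E a → LineIn ord cl r E b →
    ∀ d, Am d → tri b (a - b) d ≤ 0
  /-- Donaldson 1985, Uhlenbeck-Yau 1986, Luebke 1982: a slope stable bundle has discriminant of
  nonnegative degree, here `(4 c_2(E) - c_1(E)^2) d = - a^2 d`, and if the degree is zero it is
  projectively flat; as `X` is simply connected, a projectively flat bundle of rank two is a
  sum of two isomorphic line bundles and is not stable -/
  luebke : ∀ E a d, NonSplit reg ord cl r E a → Am d →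
    (∀ b, LineIn ord cl r E b → 2 * tri b d d < tri a d d) → tri a a d < 0

end Bundles

end Pool.OGS
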