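import Pool.Agent.H19.OGS.Sch
import Pool.Agent.H19.OGS.Bri2

/-!
The theorem for schemes.
-/

namespace Pool.OGS

open AlgebraicGeometry CategoryTheory IsLocalRing

section Ring

variable {O O' : Type} [CommRing O] [CommRing O'] [IsLocalRing O] {w : Prop} (f : w → O' →+* O)

theorem pull_top (h : ¬ w) : pull f = ⊤ := by
  rw [pull]
  exact iInf_neg h

end Ring

section Ring

variable {O : Type} [CommRing O]

theorem len_comm (I J : Ideal O) : len I J = len J I := by rw [len, len, sup_comm]

theorem len_top (J : Ideal O) : len ⊤ J = 0 := by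
  rw [len, top_sup_eq]
  have : Subsingleton (O ⧸ (⊤ : Ideal O)) := Ideal.Quotient.subsingleton_iff.2 rfl
  rw [Module.length_eq_zero]
  rfl

theorem mul_top [IsLocalRing O] : mul (⊤ : Ideal O) = 0 := by
  rw [mul]
  have h1 : {m : ℕ | (⊤ : Ideal O) ≤ maximalIdeal O ^ m} = {0} := by
    ext m
    simp only [Set.mem_ofPred_eq, Set.mem_singleton_iff, top_le_iff]
    constructor
    · intro h2
      by_contra h3
      have h4 := Ideal.pow_le_self (I := maximalIdeal O) h3
      rw [h2, top_le_iff] at h4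
      exact (maximalIdeal.isMaximal _).ne_top h4
    · rintro rfl
      simp
  rw [h1, csSup_singleton]

end Ring

theorem final (X : Scheme.{0}) [IsIntegral X] [IsLocallyNoetherian X] (s : X ⟶ Spec (.of ℂ))
    (hX : CalabiYau s) (A : Type) [AddCommGroup A] (cl : (Pr X →₀ ℤ) → A) (deg : Cv X → A → ℤ)
    (tri : A → A → A → ℤ) (c2 : A → ℤ) (hN : Numbers s cl deg tri c2)
    (hP : Published s cl deg tri c2)
    (hn : 2 ≤ Module.finrank ℤ A ∨ ∃ a : A, a ≠ 0 ∧ Nef deg a ∧ ¬ Amp cl a) :
    HasRationalCurve s := by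
  obtain ⟨h1, h2, h3, h4⟩ := hN
  obtain ⟨h5, h6, h7, h8, h9⟩ := hP
  obtain ⟨D, hD⟩ := hX.2.2.1
  have hidl : ∀ y x : Pnt X, ¬ y ⤳ x → idl y x = ⊤ := fun y x h => pull_top _ h
  have H : Hyp (P := Pnt X) (reg (X := X)) ord cl Pr.pt Cv.pt Pt.pt (ilen X) (imul X) (ihil X) deg
      tri c2 (hh s cl) (Amp cl) (HasRationalCurve s) := {
    pic := h1
    ideg := h2
    iint := h3
    ic2 := h4
    proj := ⟨cl D, D, rfl, hD⟩
    lines := h5
    bundles := h6
    cycles := h7
    sections := h8
    general := h9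
    ln_symm := fun y z x => len_comm _ _
    ln_zero := fun y z x h => by rw [ilen, hidl y x h, len_top]
    mu_zero := fun y x h => by rw [imul, hidl y x h, mul_top] }
  exact main H hn

end Pool.OGS
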