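import Pool.Agent.H19.OGS.Defs

/-!
# Calabi-Yau threefolds as schemes
-/

namespace Pool.OGS

open AlgebraicGeometry CategoryTheory Order

/-- The set of points of the scheme `X`. -/
def Pnt (X : Scheme.{0}) : Type := X

instance instTopPnt (X : Scheme.{0}) : TopologicalSpace (Pnt X) :=
  (inferInstance : TopologicalSpace X)

/-- The codimension of the closure of a point. -/
noncomputable def codim {X : Scheme.{0}} (x : Pnt X) : ℕ∞ := @coheight X _ x

/-- The dimension of the closure of a point. -/
noncomputable def dim {X : Scheme.{0}} (x : Pnt X) : ℕ∞ := @height X _ x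

/-- Prime divisors: the points of `X` whose closure has codimension one. -/
def Pr (X : Scheme.{0}) : Type := {p : Pnt X // codim p = 1}

/-- Irreducible curves: the points of `X` whose closure has dimension one. -/
def Cv (X : Scheme.{0}) : Type := {p : Pnt X // dim p = 1}

/-- Closed points. -/
def Pt (X : Scheme.{0}) : Type := {p : Pnt X // dim p = 0}

/-- The generic point of a prime divisor. -/
def Pr.pt {X : Scheme.{0}} (p : Pr X) : Pnt X := p.1

/-- The generic point of a curve. -/
def Cv.pt {X : Scheme.{0}} (Z : Cv X) : Pnt X := Z.1

/-- The point. -/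
def Pt.pt {X : Scheme.{0}} (x : Pt X) : Pnt X := x.1

/-- The set `S` of points of `X` is an affine open set. -/
def Aff (X : Scheme.{0}) (S : Set (Pnt X)) : Prop :=
  ∃ U : X.Opens, IsAffineOpen U ∧ ∀ x, x ∈ U ↔ x ∈ S

/-- The local ring of `X` at the point `x`. -/
noncomputable def Loc {X : Scheme.{0}} (x : Pnt X) : CommRingCat.{0} := X.presheaf.stalk x

instance instLocalLoc {X : Scheme.{0}} (x : Pnt X) : IsLocalRing (Loc x) :=
  (fun y : X => (inferInstance : IsLocalRing (X.presheaf.stalk y))) x

/-- The map from the local ring at `x` to the local ring at `y`, if `x` is in the closure of `y`. -/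
noncomputable def spm {X : Scheme.{0}} (y x : Pnt X) (h : y ⤳ x) : Loc x ⟶ Loc y :=
  X.presheaf.stalkSpecializes h

/-- The ideal of the closure of `y` in the local ring at `x`; the unit ideal if `x` is not in the
closure of `y`. -/
noncomputable def idl {X : Scheme.{0}} (y x : Pnt X) : Ideal (Loc x) :=
  pull fun h => (spm y x h).hom

/-- The length of the quotient of the local ring at `x` by the sum of the ideals of the closures of
`y` and `z`. -/
noncomputable def ilen (X : Scheme.{0}) (y z x : Pnt X) : ℕ := len (idl y x) (idl z x)

/-- The multiplicity at `x` of the ideal of the closure of `y`. -/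
noncomputable def imul (X : Scheme.{0}) (y x : Pnt X) : ℕ := mul (idl y x)

/-- The largest value of the Hilbert function at `x` of the closure of `y`. -/
noncomputable def ihil (X : Scheme.{0}) (y x : Pnt X) : ℕ := hil (idl y x)

/-- The composition of three ring homomorphisms. -/
def ap {A B C D : CommRingCat.{0}} (f : A ⟶ B) (g : B ⟶ C) (h : C ⟶ D) (a : A) : D :=
  h.hom (g.hom (f.hom a))

/-- A complex number as an element of the local ring of `X` at the point `x`. -/
noncomputable def cst {X : Scheme.{0}} (s : X ⟶ Spec (.of ℂ)) (x : Pnt X) (z : ℂ) : Loc x :=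
  ap (Scheme.ΓSpecIso (.of ℂ)).inv s.appTop (X.presheaf.Γgerm x) z

/-- `X` contains a rational curve: the function field of some curve `Z` in `X`, the residue field of
the local ring at the generic point of `Z`, is isomorphic to the field of rational functions in one
variable over the complex numbers. -/
def HasRationalCurve {X : Scheme.{0}} (s : X ⟶ Spec (.of ℂ)) : Prop :=
  ∃ Z : Cv X, RatRes (cst s Z.pt)

section

variable {X : Scheme.{0}} [IsIntegral X] (s : X ⟶ Spec (.of ℂ))

/-- The rational functions on `X` which are regular at the point `x`. -/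
def reg (x : Pnt X) : Set X.functionField :=
  (fun x : X => Set.range (algebraMap (X.presheaf.stalk x) X.functionField)) x

/-- A complex number as a rational function. -/
noncomputable def con (z : ℂ) : X.functionField := cst s (genericPoint X) z

variable [IsLocallyNoetherian X]

/-- The order of a rational function along a prime divisor. -/
noncomputable def ord (f : X.functionField) (p : Pr X) : ℤ := Scheme.ord (X := X) f p.pt

/-- `X` is a Calabi-Yau threefold: smooth of dimension three, projective, with trivial canonical
bundle, and without connected finite etale coverings of degree greater than one.  (Such an `X` is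
simply connected, `H^1(X, O) = 0` and, by Serre duality, `H^2(X, O) = 0`.) -/
def CalabiYau : Prop :=
  SmoothOfRelativeDimension 3 s ∧ IsProper s ∧
  (∃ D, AmpleDiv ord Pr.pt (Aff X) D) ∧ CanonicalTrivial reg (con s) ∧
  ∀ (Y : Scheme.{0}) (f : Y ⟶ X), IsFinite f → Etale f → ConnectedSpace Y → IsIso f

variable {A : Type} [AddCommGroup A] (cl : (Pr X →₀ ℤ) → A) (deg : Cv X → A → ℤ)
  (tri : A → A → A → ℤ) (c2 : A → ℤ)

/-- The line bundle `a` is ample. -/
def Amp (a : A) : Prop := Ample ord cl Pr.pt (Aff X) a

/-- The dimension of the space of sections of the line bundle `a`. -/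
noncomputable def hh (a : A) : ℕ := h0 ord cl (con s) a

/-- `A` is the group of line bundles on `X`, `cl` the class map, `deg`, `tri` and `c2` are the degree,
the intersection form and the second Chern class. -/
def Numbers : Prop :=
  IsPic ord cl ∧ IsDeg Pr.pt Cv.pt Pt.pt (ilen X) cl deg ∧ IsInt Pr.pt Cv.pt (ilen X) cl deg tri ∧
  IsC2 tri c2 (hh s cl) (Amp cl)

/-- The published theorems for the Calabi-Yau threefold `X`. -/
def Published : Prop :=
  LineThms deg tri c2 (hh s cl) (Amp cl) (HasRationalCurve s) ∧
  BundleThms reg ord cl Pr.pt tri c2 (hh s cl) (Amp cl) ∧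
  CycleThms Pr.pt Cv.pt Pt.pt (ilen X) (imul X) (ihil X) cl deg (hh s cl) ∧
  SectionThms Pr.pt Pt.pt (imul X) cl (hh s cl) (Amp cl) ∧
  ∃ V, GeneralThms Pr.pt Cv.pt Pt.pt (imul X) cl (Amp cl) V

end

end Pool.OGS
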